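import Mathlib

-- part MP_a3b474_co.Win
section

namespace Pool.Agent.MP_a3b474_co

/-- The abstract game on positions in which one scale has no suspects: `a` coins have never been
contradicted, `x` and `y` coins were contradicted by one of the two other scales only. -/
def Win : ℕ → ℕ → ℕ → ℕ → Prop
  | 0, a, x, y => a + x + y ≤ 1
  | t + 1, a, x, y => ∃ a1 a2 a3 x1 x2 x3 y1 y2 y3 : ℕ,
      a1 + a2 + a3 = a ∧ x1 + x2 + x3 = x ∧ y1 + y2 + y3 = y ∧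
      ((x1 = 0 ∧ Win t a1 y1 (a - a1)) ∨ (y1 = 0 ∧ Win t a1 x1 (a - a1)) ∨
        (a1 = a ∧ Win t a1 x1 y1)) ∧
      ((x2 = 0 ∧ Win t a2 y2 (a - a2)) ∨ (y2 = 0 ∧ Win t a2 x2 (a - a2)) ∨
        (a2 = a ∧ Win t a2 x2 y2)) ∧
      ((x3 = 0 ∧ Win t a3 y3 (a - a3)) ∨ (y3 = 0 ∧ Win t a3 x3 (a - a3)) ∨
        (a3 = a ∧ Win t a3 x3 y3))

theorem Win.symm : ∀ {t a x y : ℕ}, Win t a x y → Win t a y x
  | 0, a, x, y, h => by simp only [Win] at h ⊢; omega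
  | t + 1, a, x, y, h => by
    obtain ⟨a1, a2, a3, x1, x2, x3, y1, y2, y3, ha, hx, hy, h1, h2, h3⟩ := h
    refine ⟨a1, a2, a3, y1, y2, y3, x1, x2, x3, ha, hy, hx, ?_, ?_, ?_⟩
    · rcases h1 with h | h | h
      · exact Or.inr (Or.inl h)
      · exact Or.inl h
      · exact Or.inr (Or.inr ⟨h.1, h.2.symm⟩)
    · rcases h2 with h | h | h
      · exact Or.inr (Or.inl h)
      · exact Or.inl h
      · exact Or.inr (Or.inr ⟨h.1, h.2.symm⟩)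
    · rcases h3 with h | h | h
      · exact Or.inr (Or.inl h)
      · exact Or.inl h
      · exact Or.inr (Or.inr ⟨h.1, h.2.symm⟩)

theorem Win.mono_left : ∀ {t a x y x' : ℕ}, Win t a x y → x' ≤ x → Win t a x' y
  | 0, a, x, y, x', h, hx => by simp only [Win] at h ⊢; omega
  | t + 1, a, x, y, x', h, hx' => by
    obtain ⟨a1, a2, a3, x1, x2, x3, y1, y2, y3, ha, hx, hy, h1, h2, h3⟩ := h
    obtain ⟨z1, z2, z3, hz, hz1, hz2, hz3⟩ :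
        ∃ z1 z2 z3, z1 + z2 + z3 = x' ∧ z1 ≤ x1 ∧ z2 ≤ x2 ∧ z3 ≤ x3 :=
      ⟨min x1 x', min x2 (x' - x1), x' - x1 - x2, by omega, by omega, by omega, by omega⟩
    refine ⟨a1, a2, a3, z1, z2, z3, y1, y2, y3, ha, hz, hy, ?_, ?_, ?_⟩
    · rcases h1 with h | h | h
      · exact Or.inl ⟨by omega, h.2⟩
      · exact Or.inr (Or.inl ⟨h.1, h.2.mono_left hz1⟩)
      · exact Or.inr (Or.inr ⟨h.1, h.2.mono_left hz1⟩)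
    · rcases h2 with h | h | h
      · exact Or.inl ⟨by omega, h.2⟩
      · exact Or.inr (Or.inl ⟨h.1, h.2.mono_left hz2⟩)
      · exact Or.inr (Or.inr ⟨h.1, h.2.mono_left hz2⟩)
    · rcases h3 with h | h | h
      · exact Or.inl ⟨by omega, h.2⟩
      · exact Or.inr (Or.inl ⟨h.1, h.2.mono_left hz3⟩)
      · exact Or.inr (Or.inr ⟨h.1, h.2.mono_left hz3⟩)

theorem Win.mono {t a x y x' y' : ℕ} (h : Win t a x y) (hx : x' ≤ x) (hy : y' ≤ y) :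
    Win t a x' y' :=
  ((h.mono_left hx).symm.mono_left hy).symm

theorem win_zero : ∀ {t x y : ℕ}, x + y ≤ 3 ^ t → Win t 0 x y
  | 0, x, y, h => by simp only [Win]; simpa using h
  | t + 1, x, y, h => by
    rw [pow_succ] at h
    obtain ⟨x1, x2, x3, y1, y2, y3, hx, hy, h1, h2, h3⟩ :
        ∃ x1 x2 x3 y1 y2 y3, x1 + x2 + x3 = x ∧ y1 + y2 + y3 = y ∧ x1 + y1 ≤ 3 ^ t ∧
          x2 + y2 ≤ 3 ^ t ∧ x3 + y3 ≤ 3 ^ t := by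
      generalize 3 ^ t = P at *
      refine ⟨min x P, min (x - P) P, x - 2 * P, min y (P - x), min (y - (P - x)) (P - (x - P)),
        y - (P - x) - (P - (x - P)), ?_, ?_, ?_, ?_, ?_⟩ <;> omega
    exact ⟨0, 0, 0, x1, x2, x3, y1, y2, y3, rfl, hx, hy, Or.inr (Or.inr ⟨rfl, win_zero h1⟩),
      Or.inr (Or.inr ⟨rfl, win_zero h2⟩), Or.inr (Or.inr ⟨rfl, win_zero h3⟩)⟩

theorem win_A1 {t a x y D : ℕ} (hD : D + a ≤ 3 ^ t) (h : Win t a x (y - 2 * D)) :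
    Win (t + 1) a x y := by
  refine ⟨a, 0, 0, x, 0, 0, y - 2 * D, min y D, min (y - D) D, rfl, rfl, by omega,
    Or.inr (Or.inr ⟨rfl, h⟩), Or.inl ⟨rfl, win_zero (by omega)⟩, Or.inl ⟨rfl, win_zero (by omega)⟩⟩

theorem win_A2 {t a x y D : ℕ} (hD : D + a ≤ 3 ^ t) (h : Win t a (x - D) (y - D)) :
    Win (t + 1) a x y := by
  refine ⟨a, 0, 0, x - D, min x D, 0, y - D, 0, min y D, rfl, by omega, by omega,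
    Or.inr (Or.inr ⟨rfl, h⟩), Or.inr (Or.inl ⟨rfl, win_zero (by omega)⟩),
    Or.inl ⟨rfl, win_zero (by omega)⟩⟩

theorem win_B {t a a1 a2 a3 x y2 y3 : ℕ} (ha : a1 + a2 + a3 = a) (h1 : Win t a1 x (a - a1))
    (h2 : Win t a2 y2 (a - a2)) (h3 : Win t a3 y3 (a - a3)) : Win (t + 1) a x (y2 + y3) :=
  ⟨a1, a2, a3, x, 0, 0, 0, y2, y3, ha, rfl, by omega, Or.inr (Or.inl ⟨rfl, h1⟩),
    Or.inl ⟨rfl, h2⟩, Or.inl ⟨rfl, h3⟩⟩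

/-- The invariant: slack `κ` per uncontradicted coin, and slack `g` unless one pile is small. -/
def Inv (t : ℕ) (κ g : ℝ) : Prop :=
  (∀ a u v : ℕ, u + 3 ≤ 4 * a → (2 * t + 1 + κ) * a + u + v ≤ (3 : ℝ) ^ t → Win t a u v) ∧
  (∀ a u v : ℕ, (2 * t + 1 + κ) * a + u + v + g ≤ (3 : ℝ) ^ t → Win t a u v)

theorem Inv.weaken {t : ℕ} {κ g κ' g' : ℝ} (h : Inv t κ g) (hκ : κ ≤ κ') (hg : g ≤ g') :
    Inv t κ' g' := by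
  refine ⟨fun a u v h1 h2 => h.1 a u v h1 ?_, fun a u v h2 => h.2 a u v ?_⟩
  · have : κ * a ≤ κ' * a := mul_le_mul_of_nonneg_right hκ (Nat.cast_nonneg a)
    linarith
  · have : κ * a ≤ κ' * a := mul_le_mul_of_nonneg_right hκ (Nat.cast_nonneg a)
    linarith

theorem split_y {D y : ℕ} {e2 e3 : ℝ} (h2 : e2 ≤ D) (h3 : e3 ≤ D) (h : e2 + e3 + y + 1 ≤ 2 * D) :
    ∃ y2 y3 : ℕ, y2 + y3 = y ∧ e2 + y2 ≤ D ∧ e3 + y3 ≤ D := by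
  have h0 : 0 ≤ (D : ℝ) - e2 := by linarith
  have hf := Nat.floor_le h0
  have hl := Nat.lt_floor_add_one ((D : ℝ) - e2)
  rcases le_total y ⌊(D : ℝ) - e2⌋₊ with hy | hy
  · refine ⟨y, 0, rfl, ?_, by simpa using h3⟩
    have : (y : ℝ) ≤ ⌊(D : ℝ) - e2⌋₊ := by exact_mod_cast hy
    linarith
  · refine ⟨⌊(D : ℝ) - e2⌋₊, y - ⌊(D : ℝ) - e2⌋₊, by omega, by linarith, ?_⟩
    rw [Nat.cast_sub hy]
    linarith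

theorem win_Bcase {t : ℕ} {κ g q : ℝ} (hI : Inv t κ g) (hq : q = 2 * t + κ) (hq0 : 0 < q)
    (hg : 0 ≤ g) {a x y D : ℕ} (hD : D + a = 3 ^ t) (hxy : x ≤ y) (hxD : x ≤ D)
    (hbig : (D : ℝ) < q * a + x) (htot : q * a + x + y + (q + g + 1) ≤ 3 * D)
    (hH2 : q * (a + 2) + x ≤ 3 * D) (hlarge : 12 * q + 3 * g ≤ D) : Win (t + 1) a x y := by
  have hP : (3 : ℝ) ^ t = D + a := by exact_mod_cast hD.symm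
  have cS : ∀ b z : ℕ, b ≤ a → a + 3 ≤ 5 * b → q * b + z ≤ D → Win t b z (a - b) := by
    intro b z hb h5 hz
    refine (hI.1 b (a - b) z (by omega) ?_).symm
    rw [hq] at hz; rw [Nat.cast_sub hb, hP]; linarith
  have cG : ∀ b z : ℕ, b ≤ a → q * b + g + z ≤ D → Win t b z (a - b) := by
    intro b z hb hz
    refine hI.2 b z (a - b) ?_
    rw [hq] at hz; rw [Nat.cast_sub hb, hP]; linarith
  have c0 : ∀ z : ℕ, (z : ℝ) ≤ D → Win t 0 z (a - 0) := by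
    intro z hz
    have : z ≤ D := by exact_mod_cast hz
    exact win_zero (by omega)
  have hxD' : (x : ℝ) ≤ D := by exact_mod_cast hxD
  have hxy' : (x : ℝ) ≤ y := by exact_mod_cast hxy
  have hD0 : (0 : ℝ) ≤ D := Nat.cast_nonneg D
  -- the even split of the rest
  have even : ∀ a1 r : ℕ, a1 + r = a → Win t a1 x (a - a1) → q * (r + 1) ≤ 2 * D →
      2 * a + 11 ≤ 5 * r → q * r + y + 1 ≤ 2 * D → Win (t + 1) a x y := by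
    intro a1 r hr h1 hfit h5 hy
    obtain ⟨a2, a3, h23, hle, hge⟩ : ∃ a2 a3 : ℕ, a2 + a3 = r ∧ a3 ≤ a2 ∧ a2 ≤ a3 + 1 :=
      ⟨r - r / 2, r / 2, by omega, by omega, by omega⟩
    have h23' : (a2 : ℝ) + a3 = r := by exact_mod_cast h23
    have hle' : (a3 : ℝ) ≤ a2 := by exact_mod_cast hle
    have hge' : (a2 : ℝ) ≤ a3 + 1 := by exact_mod_cast hge
    have p1 : q * a3 ≤ q * a2 := mul_le_mul_of_nonneg_left hle' hq0.le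
    have p2 : q * a2 ≤ q * (a3 + 1) := mul_le_mul_of_nonneg_left hge' hq0.le
    have p3 : q * (a2 + a3) = q * r := by rw [h23']
    obtain ⟨y2, y3, hy23, hy2, hy3⟩ := split_y (D := D) (y := y) (e2 := q * a2) (e3 := q * a3)
      (by linarith) (by linarith) (by linarith)
    rw [← hy23]
    exact win_B (by omega) h1 (cS a2 y2 (by omega) (by omega) hy2) (cS a3 y3 (by omega) (by omega) hy3)
  set b := ⌊((D : ℝ) - x) / q⌋₊ with hb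
  have hb1 : q * b + x ≤ D := by
    have := Nat.floor_le (div_nonneg (sub_nonneg.2 hxD') hq0.le)
    rw [← hb, le_div_iff₀ hq0] at this
    linarith
  have hb2 : (D : ℝ) < q * (b + 1) + x := by
    have := Nat.lt_floor_add_one (((D : ℝ) - x) / q)
    rw [← hb, div_lt_iff₀ hq0] at this
    linarith
  have hba : b < a := by
    have : (b : ℝ) < a := lt_of_mul_lt_mul_left (a := q) (by linarith) hq0.le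
    exact_mod_cast this
  by_cases hcase : b = 0 ∨ a + 3 ≤ 5 * b
  · have h1 : Win t b x (a - b) := by
      rcases hcase with h | h
      · rw [h]; exact c0 x hxD'
      · exact cS b x hba.le h hb1
    obtain ⟨r, hr⟩ : ∃ r, b + r = a := ⟨a - b, by omega⟩
    have hr' : (b : ℝ) + r = a := by exact_mod_cast hr
    have p3 : q * (b + r) = q * a := by rw [hr']
    have hrest : q * r + g + y + 1 ≤ 2 * D := by linarith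
    by_cases hfit : q * r + g ≤ D
    · obtain ⟨y2, y3, hy23, hy2, hy3⟩ := split_y (D := D) (y := y) (e2 := q * r + g) (e3 := 0)
        hfit hD0 (by linarith)
      rw [← hy23]
      exact win_B (a3 := 0) (by omega) h1 (cG r y2 (by omega) hy2) (c0 y3 (by linarith))
    · push Not at hfit
      refine even b r hr h1 (by linarith) ?_ (by linarith)
      have hx0 : (0 : ℝ) ≤ x := Nat.cast_nonneg x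
      have : q * (2 * a + 11) < q * (5 * r) := by linarith
      have : (2 * a + 11 : ℝ) < 5 * r := lt_of_mul_lt_mul_left this hq0.le
      have : 2 * a + 11 < 5 * r := by exact_mod_cast this
      omega
  · push Not at hcase
    obtain ⟨hb0, h5⟩ := hcase
    have h5' : (5 * b : ℝ) ≤ a + 2 := by exact_mod_cast (by omega : 5 * b ≤ a + 2)
    set c := ⌊((D : ℝ) - x - g) / q⌋₊ with hc
    have hcb : c ≤ b := Nat.floor_le_floor (div_le_div_of_nonneg_right (by linarith) hq0.le)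
    have hc2 : (D : ℝ) < q * (c + 1) + x + g := by
      have := Nat.lt_floor_add_one (((D : ℝ) - x - g) / q)
      rw [← hc, div_lt_iff₀ hq0] at this
      linarith
    have h1 : Win t c x (a - c) := by
      by_cases hneg : 0 ≤ (D : ℝ) - x - g
      · have := Nat.floor_le (div_nonneg hneg hq0.le)
        rw [← hc, le_div_iff₀ hq0] at this
        exact cG c x (by omega) (by linarith)
      · have : c = 0 := Nat.floor_eq_zero.2 (by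
          rw [div_lt_one hq0]; linarith)
        rw [this]; exact c0 x hxD'
    obtain ⟨r, hr⟩ : ∃ r, c + r = a := ⟨a - c, by omega⟩
    have hr' : (c : ℝ) + r = a := by exact_mod_cast hr
    have p3 : q * (c + r) = q * a := by rw [hr']
    have hrest : q * r + y + 1 ≤ 2 * D := by linarith
    by_cases hfit : q * r ≤ D
    · obtain ⟨y2, y3, hy23, hy2, hy3⟩ := split_y (D := D) (y := y) (e2 := q * r) (e3 := 0)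
        hfit hD0 (by linarith)
      rw [← hy23]
      exact win_B (a3 := 0) (by omega) h1 (cS r y2 (by omega) (by omega) hy2) (c0 y3 (by linarith))
    · push Not at hfit
      have hc0 : (0 : ℝ) ≤ c := Nat.cast_nonneg c
      have h6 : q * (5 * b) ≤ q * (a + 2) := mul_le_mul_of_nonneg_left h5' hq0.le
      have h7 : q * r ≤ q * a := mul_le_mul_of_nonneg_left (by linarith) hq0.le
      refine even c r hr h1 (by linarith) ?_ hrest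
      have : q * 12 < q * r := by linarith
      have : (12 : ℝ) < r := lt_of_mul_lt_mul_left this hq0.le
      have : 12 < r := by exact_mod_cast this
      omega

theorem Inv.step {t : ℕ} {κ g κ' g' : ℝ} (hI : Inv t κ g) (ht : 6 ≤ t) (hκ0 : 0 ≤ κ)
    (hκ : κ ≤ κ') (hg : 0 ≤ g) (c2 : 2 * t + κ + g + 1 ≤ g')
    (c3 : (2 * t + κ + g + 1) * (2 * t + κ + 5) ≤ (κ' - κ) * 3 ^ t)
    (c4 : 12 * (2 * t + κ) + 3 * g ≤ 4 / 5 * 3 ^ t)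
    (c5 : (2 * t + κ) * (2 * t + κ + 5) ≤ 3 * 3 ^ t) : Inv (t + 1) κ' g' := by
  set q : ℝ := 2 * t + κ with hq
  have ht' : (6 : ℝ) ≤ t := by exact_mod_cast ht
  have hq0 : 0 < q := by linarith
  have core : ∀ a x y : ℕ, x ≤ y →
      ((x + 3 ≤ 4 * a ∧ (q + 3 + (κ' - κ)) * a + x + y ≤ 3 * (3 : ℝ) ^ t) ∨
        (q + 3 + (κ' - κ)) * a + x + y + g' ≤ 3 * (3 : ℝ) ^ t) → Win (t + 1) a x y := by
    intro a x y hxy h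
    have ha0 : (0 : ℝ) ≤ a := Nat.cast_nonneg a
    have hx0 : (0 : ℝ) ≤ x := Nat.cast_nonneg x
    have hy0 : (0 : ℝ) ≤ y := Nat.cast_nonneg y
    have hδ : 0 ≤ (κ' - κ) * a := mul_nonneg (by linarith) ha0
    have hW : (q + 3 + (κ' - κ)) * a + x + y ≤ 3 * (3 : ℝ) ^ t := by
      rcases h with h | h
      · exact h.2
      · linarith
    rcases Nat.eq_zero_or_pos a with rfl | hapos
    · apply win_zero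
      have : ((x + y : ℕ) : ℝ) ≤ ((3 ^ (t + 1) : ℕ) : ℝ) := by
        push_cast; rw [pow_succ]; simp at hW; linarith
      exact_mod_cast this
    have h5a : 5 * (a : ℝ) ≤ 3 ^ t := by
      have : 12 * (a : ℝ) ≤ q * a := mul_le_mul_of_nonneg_right (by linarith) ha0
      linarith
    have h5a' : 5 * a ≤ 3 ^ t := by exact_mod_cast h5a
    obtain ⟨D, hD⟩ : ∃ D, D + a = 3 ^ t := ⟨3 ^ t - a, by omega⟩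
    have hP : (3 : ℝ) ^ t = D + a := by exact_mod_cast hD.symm
    have htot : q * a + x + y + (κ' - κ) * a ≤ 3 * D := by linarith
    have hlarge : 12 * q + 3 * g ≤ D := by linarith
    have hsub : ∀ z E : ℕ, ((z - E : ℕ) : ℝ) = 0 ∨ ((z - E : ℕ) : ℝ) = z - E := by
      intro z E
      rcases le_total z E with h | h
      · left; simp [Nat.sub_eq_zero_of_le h]
      · right; rw [Nat.cast_sub h]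
    have hH2 : (x : ℝ) ≤ D → q * (a + 2) + x ≤ 3 * D := by
      intro hxD
      by_cases hs : 2 * 3 ^ t ≤ (q + 5) * a
      · have h1 : (κ' - κ) * (2 * 3 ^ t) ≤ (κ' - κ) * ((q + 5) * a) :=
          mul_le_mul_of_nonneg_left hs (by linarith)
        have h2 : (q + 5) * (2 * (q + g + 1)) ≤ (q + 5) * ((κ' - κ) * a) := by linarith
        have h3 := le_of_mul_le_mul_left h2 (by linarith)
        linarith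
      · push Not at hs
        have h1 : (q + 2) * ((q + 5) * a) ≤ (q + 2) * (2 * 3 ^ t) :=
          mul_le_mul_of_nonneg_left hs.le (by linarith)
        have h2 : (q + 5) * ((q + 2) * a + 2 * q) ≤ (q + 5) * (2 * 3 ^ t) := by linarith
        have h3 := le_of_mul_le_mul_left h2 (by linarith)
        linarith
    rcases h with ⟨hS, -⟩ | hG
    · have hS' : (x : ℝ) + 3 ≤ 4 * a := by exact_mod_cast hS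
      by_cases hA : q * a + x ≤ D
      · refine win_A1 hD.le (hI.1 a x _ hS ?_)
        rcases hsub y (2 * D) with h | h <;> rw [h] <;> push_cast <;> linarith
      · push Not at hA
        have hxD : x ≤ D := by omega
        refine win_Bcase hI hq hq0 hg hD hxy hxD hA ?_ (hH2 (by exact_mod_cast hxD)) hlarge
        have h0 : (3 : ℝ) ^ t ≤ (q + 5) * a := by linarith
        have h1 : (κ' - κ) * 3 ^ t ≤ (κ' - κ) * ((q + 5) * a) :=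
          mul_le_mul_of_nonneg_left h0 (by linarith)
        have h2 : (q + 5) * (q + g + 1) ≤ (q + 5) * ((κ' - κ) * a) := by linarith
        have h3 := le_of_mul_le_mul_left h2 (by linarith)
        linarith
    · have htotG : q * a + x + y + g' ≤ 3 * D := by linarith
      by_cases hxD : D ≤ x
      · refine win_A2 hD.le (hI.2 a _ _ ?_)
        rw [Nat.cast_sub hxD, Nat.cast_sub (hxD.trans hxy)]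
        linarith
      push Not at hxD
      by_cases hA : q * a + x + g ≤ D
      · refine win_A1 hD.le (hI.2 a x _ ?_)
        rcases hsub y (2 * D) with h | h <;> rw [h] <;> push_cast <;> linarith
      push Not at hA
      by_cases hA' : q * a + x ≤ D
      · have hy : (y : ℝ) ≤ 2 * D := by linarith
        have hy' : y ≤ 2 * D := by exact_mod_cast hy
        refine win_A1 hD.le ?_
        rw [Nat.sub_eq_zero_of_le hy']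
        refine (hI.1 a 0 x (by omega) ?_).symm
        push_cast; linarith
      · push Not at hA'
        exact win_Bcase hI hq hq0 hg hD hxy hxD.le hA' (by linarith)
          (hH2 (by exact_mod_cast hxD.le)) hlarge
  have hw : ((2 * ((t + 1 : ℕ) : ℝ) + 1 + κ')) = q + 3 + (κ' - κ) := by push_cast; rw [hq]; ring
  constructor
  · intro a u v hu h
    rw [hw, pow_succ] at h
    rcases le_total u v with huv | huv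
    · exact core a u v huv (Or.inl ⟨hu, by linarith⟩)
    · exact (core a v u huv (Or.inl ⟨by omega, by linarith⟩)).symm
  · intro a u v h
    rw [hw, pow_succ] at h
    rcases le_total u v with huv | huv
    · exact core a u v huv (Or.inr (by linarith))
    · exact (core a v u huv (Or.inr (by linarith))).symm

end Pool.Agent.MP_a3b474_co

end

-- part MP_a3b474_co.Table
section

namespace Pool.Agent.MP_a3b474_co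

/-- A split of the uncontradicted coins with the sizes of the piles that go with the parts. -/
structure Rect where
  a1 : ℕ
  a2 : ℕ
  x : ℕ
  y2 : ℕ
  y3 : ℕ

def tab1 : List (List Rect) :=
  [[],
   [⟨0,0,0,0,0⟩]]

def tab2 : List (List Rect) :=
  [[],
   [⟨0,0,2,2,0⟩, ⟨1,0,0,2,2⟩]]

def tab3 : List (List Rect) :=
  [[],
   [⟨0,0,8,8,4⟩, ⟨1,0,4,8,8⟩],
   [⟨0,1,7,2,2⟩, ⟨1,0,2,7,2⟩],
   [⟨1,1,2,2,2⟩]]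

def tab4 : List (List Rect) :=
  [[],
   [⟨0,0,26,26,20⟩, ⟨1,0,20,26,26⟩],
   [⟨0,1,25,18,18⟩, ⟨1,0,18,25,18⟩, ⟨2,0,9,25,25⟩],
   [⟨0,0,24,24,4⟩, ⟨1,1,18,18,18⟩, ⟨2,0,9,24,18⟩, ⟨3,0,4,24,24⟩],
   [⟨0,1,23,16,4⟩, ⟨1,0,16,23,4⟩, ⟨2,0,9,23,9⟩, ⟨3,0,4,23,16⟩],
   [⟨0,2,22,7,4⟩, ⟨1,1,16,16,4⟩, ⟨2,0,7,22,4⟩, ⟨3,1,4,16,16⟩],
   [⟨0,3,21,2,2⟩, ⟨1,2,12,7,2⟩, ⟨2,1,7,12,2⟩, ⟨3,0,2,21,2⟩],
   [⟨1,3,12,2,2⟩, ⟨3,1,2,12,2⟩],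
   [],
   []]

def tab5 : List (List Rect) :=
  [[],
   [⟨0,0,80,80,72⟩, ⟨1,0,72,80,80⟩],
   [⟨0,1,79,70,70⟩, ⟨1,0,70,79,70⟩, ⟨2,0,59,79,79⟩],
   [⟨0,0,78,78,52⟩, ⟨1,1,70,70,70⟩, ⟨2,0,59,78,70⟩, ⟨3,0,52,78,78⟩],
   [⟨0,1,77,68,52⟩, ⟨1,0,68,77,52⟩, ⟨2,0,59,77,59⟩, ⟨3,0,52,77,68⟩, ⟨4,0,39,77,77⟩],
   [⟨0,2,76,57,52⟩, ⟨1,1,68,68,52⟩, ⟨2,0,57,76,52⟩, ⟨3,1,52,68,68⟩, ⟨4,0,39,76,68⟩, ⟨5,0,32,76,76⟩],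
   [⟨0,3,75,50,50⟩, ⟨1,0,64,75,32⟩, ⟨2,0,57,75,39⟩, ⟨3,0,50,75,50⟩, ⟨4,0,39,75,57⟩, ⟨5,0,32,75,64⟩, ⟨6,0,23,75,75⟩],
   [⟨0,3,74,50,39⟩, ⟨1,3,64,50,50⟩, ⟨2,0,54,74,32⟩, ⟨3,1,50,64,50⟩, ⟨4,0,39,74,50⟩, ⟨5,0,32,74,54⟩, ⟨6,0,23,74,64⟩, ⟨7,0,14,74,74⟩],
   [⟨0,1,73,64,14⟩, ⟨1,0,64,73,14⟩, ⟨2,0,54,73,23⟩, ⟨3,0,42,73,32⟩, ⟨4,0,39,73,39⟩, ⟨5,1,32,64,54⟩, ⟨6,1,23,64,64⟩, ⟨7,0,14,73,64⟩],
   [⟨0,2,72,54,14⟩, ⟨1,1,64,64,14⟩, ⟨2,0,54,72,14⟩, ⟨3,1,42,64,32⟩, ⟨5,2,32,54,54⟩, ⟨6,1,21,64,54⟩, ⟨7,1,14,64,64⟩],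
   [⟨0,3,71,42,12⟩, ⟨1,2,62,52,12⟩, ⟨2,1,52,62,12⟩, ⟨3,0,42,71,12⟩, ⟨4,0,32,71,21⟩, ⟨5,0,26,71,26⟩, ⟨6,1,21,62,42⟩, ⟨7,1,12,62,52⟩],
   [⟨0,4,70,32,12⟩, ⟨1,3,62,42,12⟩, ⟨2,2,52,52,12⟩, ⟨3,1,42,62,12⟩, ⟨4,0,32,70,12⟩, ⟨5,1,26,62,26⟩, ⟨6,0,14,70,26⟩, ⟨7,1,12,62,42⟩],
   [⟨0,5,69,26,4⟩, ⟨1,5,60,26,14⟩, ⟨2,5,43,26,26⟩, ⟨3,4,42,32,26⟩, ⟨4,3,32,42,26⟩, ⟨5,1,26,60,14⟩, ⟨6,1,14,60,26⟩, ⟨7,0,4,69,26⟩],
   [⟨0,6,68,14,4⟩, ⟨1,6,60,14,14⟩, ⟨3,4,36,32,14⟩, ⟨4,4,32,32,22⟩, ⟨5,1,22,60,4⟩, ⟨6,1,14,60,14⟩, ⟨7,0,4,68,14⟩],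
   [⟨0,7,67,4,4⟩, ⟨1,6,56,12,4⟩, ⟨3,5,36,22,12⟩, ⟨4,5,27,22,22⟩, ⟨5,4,22,27,22⟩, ⟨6,1,12,56,4⟩, ⟨7,0,4,67,4⟩],
   [⟨1,7,56,4,4⟩, ⟨3,5,36,22,4⟩, ⟨4,5,27,22,12⟩, ⟨5,5,22,22,22⟩, ⟨6,4,12,27,22⟩, ⟨7,1,4,56,4⟩],
   [⟨3,6,36,9,4⟩, ⟨4,5,27,22,4⟩, ⟨5,4,22,27,4⟩, ⟨6,5,9,22,22⟩, ⟨7,4,4,27,22⟩],
   [⟨3,7,36,4,4⟩, ⟨4,6,27,9,4⟩, ⟨5,5,20,20,4⟩, ⟨6,4,9,27,4⟩, ⟨7,3,4,36,4⟩],
   [⟨4,7,27,4,4⟩, ⟨5,6,20,9,4⟩, ⟨6,5,9,20,4⟩, ⟨7,4,4,27,4⟩],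
   [⟨5,7,20,4,4⟩, ⟨7,5,4,20,4⟩],
   [⟨6,7,7,2,2⟩, ⟨7,6,2,7,2⟩],
   [⟨7,7,2,2,2⟩],
   []]

def tab6 : List (List Rect) :=
  [[],
   [⟨0,0,242,242,232⟩, ⟨1,0,232,242,242⟩],
   [⟨0,1,241,230,230⟩, ⟨1,0,230,241,230⟩, ⟨2,0,217,241,241⟩],
   [⟨0,0,240,240,208⟩, ⟨1,1,230,230,230⟩, ⟨2,0,217,240,230⟩, ⟨3,0,208,240,240⟩],
   [⟨0,1,239,228,208⟩, ⟨1,0,228,239,208⟩, ⟨2,0,217,239,217⟩, ⟨3,0,208,239,228⟩, ⟨4,0,193,239,239⟩],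
   [⟨0,2,238,215,208⟩, ⟨1,1,228,228,208⟩, ⟨2,0,215,238,208⟩, ⟨3,1,208,228,228⟩, ⟨4,0,193,238,228⟩, ⟨5,0,184,238,238⟩],
   [⟨0,3,237,206,206⟩, ⟨1,0,224,237,184⟩, ⟨2,0,215,237,193⟩, ⟨3,0,206,237,206⟩, ⟨4,0,193,237,215⟩, ⟨5,0,184,237,224⟩, ⟨6,0,173,237,237⟩],
   [⟨0,3,236,206,193⟩, ⟨1,3,224,206,206⟩, ⟨2,0,212,236,184⟩, ⟨3,1,206,224,206⟩, ⟨4,0,193,236,206⟩, ⟨5,0,184,236,212⟩, ⟨6,0,173,236,224⟩, ⟨7,0,162,236,236⟩],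
   [⟨0,1,235,224,162⟩, ⟨1,0,224,235,162⟩, ⟨2,0,212,235,173⟩, ⟨3,0,198,235,184⟩, ⟨4,0,193,235,193⟩, ⟨5,1,184,224,212⟩, ⟨6,1,173,224,224⟩, ⟨7,0,162,235,224⟩, ⟨8,0,137,235,235⟩],
   [⟨0,2,234,212,162⟩, ⟨1,1,224,224,162⟩, ⟨2,0,212,234,162⟩, ⟨3,1,198,224,184⟩, ⟨4,0,186,234,184⟩, ⟨5,2,184,212,212⟩, ⟨6,1,171,224,212⟩, ⟨7,1,162,224,224⟩, ⟨8,0,137,234,224⟩, ⟨9,0,128,234,234⟩],
   [⟨0,3,233,198,160⟩, ⟨1,2,222,210,160⟩, ⟨2,1,210,222,160⟩, ⟨3,0,198,233,160⟩, ⟨4,0,186,233,171⟩, ⟨5,0,178,233,178⟩, ⟨6,1,171,222,198⟩, ⟨7,1,160,222,210⟩, ⟨8,1,137,222,222⟩, ⟨9,0,128,233,222⟩, ⟨10,0,114,233,233⟩],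
   [⟨0,4,232,186,160⟩, ⟨1,3,222,198,160⟩, ⟨2,2,210,210,160⟩, ⟨3,1,198,222,160⟩, ⟨4,0,186,232,160⟩, ⟨5,1,178,222,178⟩, ⟨6,0,164,232,178⟩, ⟨7,1,160,222,198⟩, ⟨8,1,137,222,210⟩, ⟨9,1,128,222,222⟩, ⟨10,0,114,232,222⟩, ⟨11,0,104,232,232⟩],
   [⟨0,5,231,178,152⟩, ⟨1,5,220,178,164⟩, ⟨2,5,201,178,178⟩, ⟨3,4,198,186,178⟩, ⟨4,3,186,198,178⟩, ⟨5,1,178,220,164⟩, ⟨6,1,164,220,178⟩, ⟨7,0,152,231,178⟩, ⟨8,1,137,220,198⟩, ⟨9,0,128,231,198⟩, ⟨10,1,114,220,220⟩, ⟨11,0,104,231,220⟩, ⟨12,0,95,231,231⟩],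
   [⟨0,6,230,164,152⟩, ⟨1,6,220,164,164⟩, ⟨2,4,201,186,152⟩, ⟨3,4,192,186,164⟩, ⟨4,4,186,186,174⟩, ⟨5,1,174,220,152⟩, ⟨6,1,164,220,164⟩, ⟨7,0,152,230,164⟩, ⟨8,1,137,220,186⟩, ⟨9,0,128,230,186⟩, ⟨10,0,114,230,192⟩, ⟨11,1,104,220,220⟩, ⟨12,0,95,230,220⟩, ⟨13,0,82,230,230⟩],
   [⟨0,7,229,152,152⟩, ⟨1,6,216,162,152⟩, ⟨2,5,201,174,152⟩, ⟨3,5,192,174,162⟩, ⟨4,5,181,174,174⟩, ⟨5,0,174,229,128⟩, ⟨6,1,162,216,152⟩, ⟨7,0,152,229,152⟩, ⟨8,0,137,229,162⟩, ⟨9,0,128,229,174⟩, ⟨10,0,114,229,181⟩, ⟨11,0,104,229,192⟩, ⟨12,1,95,216,216⟩, ⟨13,0,82,229,216⟩, ⟨14,0,71,229,229⟩],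
   [⟨0,6,228,162,128⟩, ⟨1,7,216,152,152⟩, ⟨2,6,201,162,152⟩, ⟨3,5,192,174,152⟩, ⟨4,5,181,174,162⟩, ⟨5,5,174,174,174⟩, ⟨6,0,162,228,128⟩, ⟨7,1,152,216,152⟩, ⟨8,0,137,228,152⟩, ⟨9,0,128,228,162⟩, ⟨10,0,114,228,174⟩, ⟨11,0,104,228,181⟩, ⟨12,0,95,228,192⟩, ⟨13,1,82,216,216⟩, ⟨14,0,71,228,216⟩, ⟨15,0,60,228,228⟩],
   [⟨0,7,227,152,128⟩, ⟨1,7,216,152,137⟩, ⟨2,7,201,152,152⟩, ⟨3,1,192,216,95⟩, ⟨4,5,181,174,152⟩, ⟨5,4,174,181,152⟩, ⟨6,5,159,174,174⟩, ⟨7,0,152,227,128⟩, ⟨8,1,137,216,152⟩, ⟨9,0,128,227,152⟩, ⟨10,1,114,216,174⟩, ⟨11,0,104,227,174⟩, ⟨12,0,95,227,181⟩, ⟨13,0,82,227,192⟩, ⟨14,1,71,216,216⟩, ⟨15,0,60,227,216⟩, ⟨16,0,49,227,227⟩],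
   [⟨0,0,226,226,40⟩, ⟨1,7,216,152,128⟩, ⟨2,7,201,152,137⟩, ⟨3,7,192,152,152⟩, ⟨4,6,181,159,152⟩, ⟨5,5,172,172,152⟩, ⟨6,4,159,181,152⟩, ⟨7,1,152,216,128⟩, ⟨8,0,137,226,128⟩, ⟨9,1,128,216,152⟩, ⟨10,0,114,226,152⟩, ⟨11,1,104,216,172⟩, ⟨12,0,86,226,172⟩, ⟨13,1,82,216,192⟩, ⟨14,0,71,226,192⟩, ⟨15,1,60,216,216⟩, ⟨16,0,49,226,216⟩, ⟨17,0,40,226,226⟩],
   [⟨0,0,225,225,31⟩, ⟨1,7,214,152,114⟩, ⟨2,7,201,152,128⟩, ⟨3,7,192,152,137⟩, ⟨4,7,181,152,152⟩, ⟨5,6,172,159,152⟩, ⟨6,5,159,172,152⟩, ⟨7,4,152,181,152⟩, ⟨8,3,137,192,152⟩, ⟨9,0,128,225,128⟩, ⟨10,1,114,214,152⟩, ⟨11,0,104,225,152⟩, ⟨12,1,86,214,172⟩, ⟨13,0,74,225,172⟩, ⟨14,0,71,225,181⟩, ⟨15,0,60,225,192⟩, ⟨16,1,49,214,214⟩, ⟨17,0,40,225,214⟩, ⟨18,0,31,225,225⟩],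
   [⟨0,0,224,224,24⟩, ⟨1,7,214,152,104⟩, ⟨2,7,201,152,114⟩, ⟨3,7,192,152,128⟩, ⟨4,7,181,152,137⟩, ⟨5,7,172,152,152⟩, ⟨6,4,157,181,128⟩, ⟨7,5,152,172,152⟩, ⟨8,4,137,181,152⟩, ⟨9,3,128,192,152⟩, ⟨10,2,114,201,152⟩, ⟨11,1,104,214,152⟩, ⟨12,0,86,224,152⟩, ⟨13,1,74,214,172⟩, ⟨14,0,67,224,172⟩, ⟨15,1,60,214,192⟩, ⟨16,0,49,224,192⟩, ⟨17,1,40,214,214⟩, ⟨18,0,31,224,214⟩, ⟨19,0,24,224,224⟩],
   [⟨0,1,223,212,24⟩, ⟨1,0,212,223,24⟩, ⟨2,9,201,128,128⟩, ⟨3,8,192,137,128⟩, ⟨4,7,181,150,128⟩, ⟨5,7,172,150,137⟩, ⟨6,5,157,172,128⟩, ⟨7,4,150,181,128⟩, ⟨8,5,137,172,150⟩, ⟨9,4,128,181,150⟩, ⟨10,5,114,172,172⟩, ⟨11,4,104,181,172⟩, ⟨12,3,86,192,172⟩, ⟨13,0,74,223,150⟩, ⟨14,1,67,212,172⟩, ⟨15,0,56,223,172⟩, ⟨16,0,49,223,181⟩, ⟨17,0,40,223,192⟩, ⟨18,0,31,223,201⟩, ⟨19,0,24,223,212⟩, ⟨20,0,9,223,223⟩],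
   [⟨0,0,222,222,4⟩, ⟨1,1,212,212,24⟩, ⟨2,0,194,222,24⟩, ⟨3,9,192,128,128⟩, ⟨4,8,177,137,128⟩, ⟨5,7,172,150,128⟩, ⟨6,7,154,150,137⟩, ⟨7,5,150,172,128⟩, ⟨8,5,137,172,137⟩, ⟨9,5,128,172,150⟩, ⟨10,3,114,192,137⟩, ⟨11,5,104,172,172⟩, ⟨12,0,86,222,128⟩, ⟨13,3,74,192,172⟩, ⟨14,0,67,222,150⟩, ⟨15,1,56,212,172⟩, ⟨16,0,44,222,172⟩, ⟨17,1,40,212,192⟩, ⟨18,0,31,222,192⟩, ⟨19,1,24,212,212⟩, ⟨20,0,9,222,212⟩, ⟨21,0,4,222,222⟩],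
   [⟨0,1,221,206,4⟩, ⟨1,0,206,221,4⟩, ⟨2,9,194,128,104⟩, ⟨3,0,184,221,24⟩, ⟨4,9,177,128,128⟩, ⟨5,8,168,137,128⟩, ⟨6,8,154,137,137⟩, ⟨7,5,138,168,114⟩, ⟨8,5,137,168,128⟩, ⟨9,4,128,177,128⟩, ⟨10,4,114,177,137⟩, ⟨11,0,104,221,104⟩, ⟨12,5,86,168,168⟩, ⟨13,0,74,221,128⟩, ⟨14,0,67,221,137⟩, ⟨15,2,56,194,168⟩, ⟨16,0,44,221,154⟩, ⟨17,0,36,221,168⟩, ⟨18,0,31,221,177⟩, ⟨19,0,24,221,184⟩, ⟨20,0,9,221,194⟩, ⟨21,0,4,221,206⟩],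
   [⟨0,4,220,177,24⟩, ⟨1,1,206,206,4⟩, ⟨2,0,194,220,4⟩, ⟨3,9,184,128,104⟩, ⟨4,0,177,220,24⟩, ⟨5,9,168,128,128⟩, ⟨6,6,154,154,104⟩, ⟨7,5,138,168,104⟩, ⟨9,5,128,168,128⟩, ⟨11,3,104,184,128⟩, ⟨12,0,86,220,104⟩, ⟨13,5,74,168,168⟩, ⟨14,0,60,220,128⟩, ⟨15,4,56,177,177⟩, ⟨16,2,44,194,168⟩, ⟨17,0,36,220,154⟩, ⟨18,0,27,220,168⟩, ⟨19,0,24,220,177⟩, ⟨20,0,7,220,184⟩, ⟨21,0,4,220,194⟩],
   [⟨0,5,219,168,20⟩, ⟨1,4,206,177,20⟩, ⟨2,1,194,206,2⟩, ⟨3,0,184,219,2⟩, ⟨4,0,177,219,7⟩, ⟨5,0,168,219,20⟩, ⟨6,0,154,219,27⟩, ⟨7,0,138,219,36⟩, ⟨8,5,128,168,96⟩, ⟨9,4,118,177,96⟩, ⟨10,5,104,168,118⟩, ⟨11,5,96,168,128⟩, ⟨12,6,86,154,154⟩, ⟨13,5,74,168,154⟩, ⟨14,5,60,168,168⟩, ⟨15,4,49,177,168⟩, ⟨16,4,44,177,177⟩, ⟨17,2,36,194,168⟩, ⟨18,1,27,206,168⟩, ⟨19,0,20,219,168⟩, ⟨20,0,7,219,177⟩, ⟨21,0,2,219,184⟩],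
   [⟨0,4,218,174,2⟩, ⟨1,5,206,168,20⟩, ⟨2,2,194,194,2⟩, ⟨3,1,184,206,2⟩, ⟨4,0,174,218,2⟩, ⟨5,1,168,206,20⟩, ⟨6,0,154,218,20⟩, ⟨7,0,138,218,27⟩, ⟨8,0,128,218,36⟩, ⟨9,5,118,168,96⟩, ⟨10,5,104,168,104⟩, ⟨11,5,96,168,118⟩, ⟨12,5,86,168,128⟩, ⟨13,6,74,154,154⟩, ⟨14,5,60,168,154⟩, ⟨15,5,49,168,168⟩, ⟨16,4,44,174,168⟩, ⟨17,3,36,184,168⟩, ⟨18,2,27,194,168⟩, ⟨19,1,20,206,168⟩, ⟨20,0,4,218,168⟩, ⟨21,0,2,218,174⟩],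
   [⟨0,6,217,154,4⟩, ⟨1,6,206,154,20⟩, ⟨3,4,184,174,20⟩, ⟨5,2,163,194,20⟩, ⟨6,1,154,206,20⟩, ⟨7,0,138,217,20⟩, ⟨8,0,128,217,27⟩, ⟨9,5,118,163,86⟩, ⟨10,4,104,174,86⟩, ⟨11,6,88,154,118⟩, ⟨12,6,86,154,128⟩, ⟨13,1,74,206,86⟩, ⟨14,6,60,154,154⟩, ⟨15,5,49,163,154⟩, ⟨16,4,36,174,154⟩, ⟨17,3,31,184,154⟩, ⟨18,2,27,194,154⟩, ⟨19,1,20,206,154⟩, ⟨20,0,4,217,154⟩],
   [⟨0,8,216,128,20⟩, ⟨1,6,206,154,4⟩, ⟨2,6,194,154,20⟩, ⟨3,5,184,163,20⟩, ⟨5,3,163,184,20⟩, ⟨6,2,154,194,20⟩, ⟨7,1,138,206,20⟩, ⟨8,0,128,216,20⟩, ⟨9,0,118,216,24⟩, ⟨10,4,104,174,74⟩, ⟨11,3,88,184,74⟩, ⟨13,6,74,154,128⟩, ⟨14,4,56,174,118⟩, ⟨15,6,49,154,154⟩, ⟨16,5,36,163,154⟩, ⟨17,4,27,174,154⟩, ⟨18,3,24,184,154⟩, ⟨19,2,20,194,154⟩, ⟨20,1,4,206,154⟩],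
   [⟨0,8,215,128,2⟩, ⟨1,7,204,138,2⟩, ⟨2,6,192,152,2⟩, ⟨3,5,184,159,2⟩, ⟨4,4,170,170,2⟩, ⟨5,3,159,184,2⟩, ⟨6,2,152,192,2⟩, ⟨7,1,138,204,2⟩, ⟨8,0,128,215,2⟩, ⟨9,1,118,204,20⟩, ⟨10,9,104,118,118⟩, ⟨11,8,88,128,118⟩, ⟨12,6,74,152,104⟩, ⟨13,6,68,152,118⟩, ⟨14,6,56,152,128⟩, ⟨15,6,44,152,138⟩, ⟨16,6,36,152,152⟩, ⟨17,3,27,184,128⟩, ⟨18,1,20,204,118⟩, ⟨19,3,8,184,152⟩, ⟨20,2,2,192,152⟩],
   [⟨0,9,214,118,2⟩, ⟨1,8,204,128,2⟩, ⟨2,7,192,138,2⟩, ⟨3,6,184,152,2⟩, ⟨4,5,170,159,2⟩, ⟨5,4,159,170,2⟩, ⟨6,3,152,184,2⟩, ⟨7,2,138,192,2⟩, ⟨8,1,128,204,2⟩, ⟨9,0,118,214,2⟩, ⟨10,1,104,204,20⟩, ⟨11,9,88,118,118⟩, ⟨12,8,74,128,118⟩, ⟨13,6,68,152,104⟩, ⟨14,6,56,152,118⟩, ⟨15,6,44,152,128⟩, ⟨16,6,36,152,138⟩, ⟨17,6,27,152,152⟩, ⟨18,3,20,184,128⟩, ⟨19,1,8,204,118⟩, ⟨20,3,2,184,152⟩],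
   [⟨0,11,213,88,8⟩, ⟨3,9,182,118,20⟩, ⟨4,8,170,128,20⟩, ⟨5,7,159,138,20⟩, ⟨8,3,128,182,8⟩, ⟨9,3,118,182,20⟩, ⟨10,1,104,202,8⟩, ⟨11,1,88,202,20⟩, ⟨12,9,74,118,118⟩, ⟨13,8,68,128,118⟩, ⟨14,7,56,138,118⟩, ⟨15,7,44,138,128⟩, ⟨16,5,31,159,118⟩, ⟨17,4,27,170,118⟩, ⟨18,3,20,182,118⟩, ⟨19,3,8,182,128⟩],
   [⟨0,13,212,68,20⟩, ⟨2,10,190,104,8⟩, ⟨3,10,182,104,20⟩, ⟨4,8,170,128,8⟩, ⟨5,8,159,128,20⟩, ⟨8,5,128,159,20⟩, ⟨10,3,104,182,20⟩, ⟨12,1,74,202,20⟩, ⟨13,0,68,212,20⟩, ⟨14,4,49,170,68⟩, ⟨15,8,44,128,128⟩, ⟨16,5,31,159,104⟩, ⟨17,4,24,170,104⟩, ⟨18,5,20,159,128⟩, ⟨19,4,8,170,128⟩],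
   [⟨0,13,211,64,8⟩, ⟨1,12,198,74,8⟩, ⟨2,11,187,88,8⟩, ⟨3,10,174,97,8⟩, ⟨5,8,156,118,8⟩, ⟨6,7,139,128,8⟩, ⟨7,6,128,139,8⟩, ⟨8,5,118,156,8⟩, ⟨9,4,108,163,8⟩, ⟨10,3,97,174,8⟩, ⟨11,2,88,187,8⟩, ⟨12,1,74,198,8⟩, ⟨13,0,64,211,8⟩, ⟨14,0,49,211,13⟩, ⟨15,0,44,211,24⟩, ⟨16,5,31,156,88⟩, ⟨17,0,24,211,44⟩, ⟨18,5,13,156,108⟩, ⟨19,0,8,211,64⟩],
   [⟨0,14,210,49,8⟩, ⟨1,13,198,64,8⟩, ⟨2,12,187,74,8⟩, ⟨3,11,174,88,8⟩, ⟨5,9,156,108,8⟩, ⟨6,8,139,118,8⟩, ⟨7,7,128,128,8⟩, ⟨8,6,118,139,8⟩, ⟨9,5,108,156,8⟩, ⟨10,4,97,163,8⟩, ⟨11,3,88,174,8⟩, ⟨12,2,74,187,8⟩, ⟨13,1,64,198,8⟩, ⟨14,0,49,210,8⟩, ⟨15,0,44,210,13⟩, ⟨16,0,31,210,24⟩, ⟨17,5,24,156,88⟩, ⟨18,0,13,210,44⟩, ⟨19,5,8,156,108⟩],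
   [⟨0,15,209,44,8⟩, ⟨1,14,198,49,8⟩, ⟨2,13,187,64,8⟩, ⟨3,12,174,74,8⟩, ⟨5,10,156,97,8⟩, ⟨6,9,139,108,8⟩, ⟨7,8,128,118,8⟩, ⟨8,7,118,128,8⟩, ⟨9,6,108,139,8⟩, ⟨10,5,97,156,8⟩, ⟨11,4,88,163,8⟩, ⟨12,3,74,174,8⟩, ⟨13,2,64,187,8⟩, ⟨15,0,44,209,8⟩, ⟨16,0,31,209,13⟩, ⟨17,0,24,209,24⟩, ⟨18,5,13,156,88⟩, ⟨19,0,8,209,44⟩],
   [⟨0,16,208,31,8⟩, ⟨1,15,198,44,8⟩, ⟨2,14,185,49,8⟩, ⟨3,13,174,64,8⟩, ⟨5,11,156,88,8⟩, ⟨6,10,139,97,8⟩, ⟨7,9,128,108,8⟩, ⟨8,8,118,118,8⟩, ⟨9,7,108,128,8⟩, ⟨10,6,97,139,8⟩, ⟨11,5,88,156,8⟩, ⟨12,4,74,163,8⟩, ⟨13,3,64,174,8⟩, ⟨15,1,44,198,8⟩, ⟨16,0,31,208,8⟩, ⟨17,1,24,198,24⟩, ⟨18,0,13,208,24⟩, ⟨19,5,8,156,88⟩],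
   [⟨0,17,207,24,8⟩, ⟨1,16,196,31,8⟩, ⟨2,15,185,44,8⟩, ⟨3,14,174,49,8⟩, ⟨5,12,156,74,8⟩, ⟨6,11,139,88,8⟩, ⟨7,10,128,97,8⟩, ⟨8,9,118,108,8⟩, ⟨9,8,108,118,8⟩, ⟨10,7,97,128,8⟩, ⟨11,6,88,139,8⟩, ⟨12,5,74,156,8⟩, ⟨13,4,60,163,8⟩, ⟨15,2,44,185,8⟩, ⟨17,0,24,207,8⟩, ⟨18,0,13,207,13⟩, ⟨19,0,8,207,24⟩],
   [⟨0,18,206,13,8⟩, ⟨1,17,196,24,8⟩, ⟨2,16,183,31,8⟩, ⟨3,15,174,44,8⟩, ⟨5,13,156,60,8⟩, ⟨6,12,139,74,8⟩, ⟨7,11,128,88,8⟩, ⟨8,11,118,88,13⟩, ⟨9,9,108,108,8⟩, ⟨11,7,88,128,8⟩, ⟨12,6,74,139,8⟩, ⟨13,5,60,156,8⟩, ⟨15,3,44,174,8⟩, ⟨17,1,24,196,8⟩, ⟨18,0,13,206,8⟩, ⟨19,1,8,196,24⟩],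
   [⟨0,19,205,8,8⟩, ⟨1,18,194,13,8⟩, ⟨2,17,183,20,8⟩, ⟨3,16,174,31,8⟩, ⟨4,15,158,36,8⟩, ⟨6,13,139,60,8⟩, ⟨7,12,128,74,8⟩, ⟨8,11,118,82,8⟩, ⟨9,10,108,92,8⟩, ⟨10,9,92,108,8⟩, ⟨12,7,74,128,8⟩, ⟨13,6,60,139,8⟩, ⟨16,3,31,174,8⟩, ⟨19,0,8,205,8⟩],
   [⟨1,19,194,8,8⟩, ⟨3,17,174,20,8⟩, ⟨4,16,158,27,8⟩, ⟨5,15,144,36,8⟩, ⟨7,13,128,60,8⟩, ⟨8,12,118,69,8⟩, ⟨9,11,108,82,8⟩, ⟨10,10,92,92,8⟩, ⟨11,9,82,108,8⟩, ⟨12,8,69,118,8⟩, ⟨13,7,60,128,8⟩, ⟨15,5,36,144,8⟩, ⟨17,3,20,174,8⟩, ⟨19,1,8,194,8⟩],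
   [⟨2,19,176,4,4⟩, ⟨3,18,165,9,4⟩, ⟨4,17,158,20,4⟩, ⟨5,16,144,27,4⟩, ⟨6,15,132,36,4⟩, ⟨7,14,124,44,4⟩, ⟨8,13,118,60,4⟩, ⟨9,12,108,69,4⟩, ⟨10,11,92,82,4⟩, ⟨11,10,82,92,4⟩, ⟨12,9,69,108,4⟩, ⟨13,8,60,118,4⟩, ⟨14,7,44,124,4⟩, ⟨15,8,36,118,20⟩, ⟨16,5,27,144,4⟩, ⟨17,4,20,158,4⟩, ⟨18,3,9,165,4⟩, ⟨19,2,4,176,4⟩],
   [⟨3,19,165,4,4⟩, ⟨4,18,158,9,4⟩, ⟨5,17,144,20,4⟩, ⟨6,16,132,27,4⟩, ⟨7,15,124,36,4⟩, ⟨9,13,108,60,4⟩, ⟨10,12,92,69,4⟩, ⟨11,11,82,82,4⟩, ⟨12,10,69,92,4⟩, ⟨13,9,60,108,4⟩, ⟨14,9,44,108,9⟩, ⟨15,7,36,124,4⟩, ⟨16,6,27,132,4⟩, ⟨17,5,20,144,4⟩, ⟨18,4,9,158,4⟩, ⟨19,3,4,165,4⟩],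
   [⟨4,19,158,4,4⟩, ⟨5,18,144,9,4⟩, ⟨6,18,132,9,9⟩, ⟨7,16,124,27,4⟩, ⟨8,15,112,34,4⟩, ⟨10,13,92,54,4⟩, ⟨11,12,82,69,4⟩, ⟨12,11,69,82,4⟩, ⟨13,10,54,92,4⟩, ⟨15,8,34,112,4⟩, ⟨16,7,27,124,4⟩, ⟨18,5,9,144,4⟩, ⟨19,4,4,158,4⟩],
   [⟨5,19,144,4,4⟩, ⟨6,18,132,8,4⟩, ⟨7,17,124,13,4⟩, ⟨8,16,112,26,4⟩, ⟨9,16,96,26,8⟩, ⟨11,13,82,54,4⟩, ⟨12,12,68,68,4⟩, ⟨13,11,54,82,4⟩, ⟨14,11,36,82,8⟩, ⟨16,8,26,112,4⟩, ⟨17,7,13,124,4⟩, ⟨19,5,4,144,4⟩],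
   [⟨8,18,112,8,8⟩, ⟨9,17,96,13,8⟩, ⟨10,16,83,22,8⟩, ⟨12,14,68,36,8⟩, ⟨13,13,54,54,8⟩, ⟨14,12,36,68,8⟩, ⟨16,10,22,83,8⟩, ⟨18,8,8,112,8⟩],
   [⟨9,18,96,8,8⟩, ⟨10,17,83,9,8⟩, ⟨11,16,74,22,8⟩, ⟨13,14,54,36,8⟩, ⟨14,13,36,54,8⟩, ⟨16,11,22,74,8⟩, ⟨18,9,8,96,8⟩],
   [⟨10,18,83,4,4⟩, ⟨11,17,74,9,4⟩, ⟨12,16,60,22,4⟩, ⟨13,15,46,27,4⟩, ⟨14,16,36,22,22⟩, ⟨15,13,27,46,4⟩, ⟨16,12,22,60,4⟩, ⟨17,11,9,74,4⟩, ⟨18,10,4,83,4⟩],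
   [⟨11,18,74,4,4⟩, ⟨12,17,60,9,4⟩, ⟨13,16,46,22,4⟩, ⟨14,15,36,27,4⟩, ⟨15,16,27,22,22⟩, ⟨16,13,22,46,4⟩, ⟨17,12,9,60,4⟩, ⟨18,11,4,74,4⟩]]

def tab : ℕ → List (List Rect)
  | 1 => tab1
  | 2 => tab2
  | 3 => tab3
  | 4 => tab4
  | 5 => tab5
  | 6 => tab6
  | _ => []

def win : ℕ → ℕ → ℕ → ℕ → Bool
  | 0, a, x, y => Nat.ble (a + x + y) 1
  | t + 1, a, x, y =>
      Nat.ble ((2 * t + 3) * a + x + y) (3 ^ (t + 1)) &&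
      (Nat.beq a 0 ||
        ((tab (t + 1)).getD a []).any (fun r =>
          (Nat.ble x r.x && Nat.ble y (r.y2 + r.y3)) || (Nat.ble y r.x && Nat.ble x (r.y2 + r.y3))) ||
        (Nat.ble a (3 ^ t) &&
          (win t a x (y - 2 * (3 ^ t - a)) || win t a (x - (3 ^ t - a)) (y - (3 ^ t - a)) ||
            win t a y (x - 2 * (3 ^ t - a)))))

def rowOk (t a : ℕ) (l : List Rect) : Bool :=
  l.all fun r => Nat.ble (r.a1 + r.a2) a && win t r.a1 r.x (a - r.a1) &&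
    win t r.a2 r.y2 (a - r.a2) && win t (a - r.a1 - r.a2) r.y3 (a - (a - r.a1 - r.a2))

def tabOk (t : ℕ) : Bool :=
  (List.range 60).all fun a => rowOk t a ((tab (t + 1)).getD a [])

theorem tabOk0 : tabOk 0 = true := by decide +kernel
theorem tabOk1 : tabOk 1 = true := by decide +kernel
theorem tabOk2 : tabOk 2 = true := by decide +kernel
theorem tabOk3 : tabOk 3 = true := by decide +kernel
theorem tabOk4 : tabOk 4 = true := by decide +kernel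
theorem tabOk5 : tabOk 5 = true := by decide +kernel

def baseS : Bool :=
  (List.range 48).all fun a => (List.range (4 * a - 2)).all fun u =>
    Nat.blt 2187 (46 * a + 3 * u) || win 6 a u ((2187 - 46 * a - 3 * u) / 3)

def baseG : Bool :=
  (List.range 48).all fun a => (List.range 360).all fun u =>
    Nat.blt 2157 (46 * a + 6 * u) || win 6 a u ((2157 - 46 * a - 3 * u) / 3)

theorem baseS_ok : baseS = true := by decide +kernel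
theorem baseG_ok : baseG = true := by decide +kernel

end Pool.Agent.MP_a3b474_co

end

-- part MP_a3b474_co.Chain
section

namespace Pool.Agent.MP_a3b474_co

theorem tabOk_of_lt {t : ℕ} (ht : t < 6) : tabOk t = true := by
  interval_cases t
  exacts [tabOk0, tabOk1, tabOk2, tabOk3, tabOk4, tabOk5]

theorem win_sound : ∀ {t : ℕ}, t ≤ 6 → ∀ {a x y : ℕ}, win t a x y = true → Win t a x y
  | 0, _, a, x, y, h => by simpa [win, Win, Nat.ble_eq] using h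
  | t + 1, ht, a, x, y, h => by
    have ht' : t ≤ 6 := by omega
    simp only [win, Bool.and_eq_true, Bool.or_eq_true, Nat.ble_eq,
      List.any_eq_true] at h
    obtain ⟨hw, h⟩ := h
    rcases h with (h | ⟨r, hr, h⟩) | ⟨ha, h⟩
    · have h0 : a = 0 := Nat.eq_of_beq_eq_true h
      subst h0
      exact win_zero (by simpa using hw)
    · have ha : a < 60 := by
        have h1 : 3 ^ (t + 1) ≤ 3 ^ 6 := Nat.pow_le_pow_right (by norm_num) ht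
        have h2 : t < 6 := by omega
        interval_cases t <;> omega
      have hok := tabOk_of_lt (t := t) (by omega)
      simp only [tabOk, List.all_eq_true, List.mem_range, rowOk, Bool.and_eq_true,
        Nat.ble_eq] at hok
      obtain ⟨⟨⟨h0, h1⟩, h2⟩, h3⟩ := hok a ha r hr
      have hB := win_B (a := a) (by omega) (win_sound ht' h1) (win_sound ht' h2) (win_sound ht' h3)
      rcases h with h | h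
      · exact hB.mono h.1 h.2
      · exact (hB.mono h.1 h.2).symm
    · have hD : 3 ^ t - a + a ≤ 3 ^ t := by omega
      rcases h with (h | h) | h
      · exact win_A1 hD (win_sound ht' h)
      · exact win_A2 hD (win_sound ht' h)
      · exact (win_A1 hD (win_sound ht' h)).symm

theorem inv6 : Inv 6 (7 / 3) 10 := by
  constructor
  · intro a u v hu h
    have h' : 46 * a + 3 * u + 3 * v ≤ 2187 := by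
      have : (46 * a + 3 * u + 3 * v : ℝ) ≤ 2187 := by push_cast at h; linarith
      exact_mod_cast this
    have hb := baseS_ok
    simp only [baseS, List.all_eq_true, List.mem_range, Bool.or_eq_true, Nat.blt_eq] at hb
    rcases hb a (by omega) u (by omega) with h1 | h1
    · omega
    · exact (win_sound le_rfl h1).mono le_rfl (by omega)
  · have key : ∀ a u v : ℕ, u ≤ v → 46 * a + 3 * u + 3 * v ≤ 2157 → Win 6 a u v := by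
      intro a u v huv h'
      have hb := baseG_ok
      simp only [baseG, List.all_eq_true, List.mem_range, Bool.or_eq_true, Nat.blt_eq] at hb
      rcases hb a (by omega) u (by omega) with h1 | h1
      · omega
      · exact (win_sound le_rfl h1).mono le_rfl (by omega)
    intro a u v h
    have h' : 46 * a + 3 * u + 3 * v ≤ 2157 := by
      have : (46 * a + 3 * u + 3 * v : ℝ) ≤ 2157 := by push_cast at h; linarith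
      exact_mod_cast this
    rcases le_total u v with huv | huv
    · exact key a u v huv h'
    · exact (key a v u huv (by omega)).symm

theorem inv7 : Inv 7 (301 / 100) (51 / 2) := inv6.step le_rfl (by norm_num) (by norm_num)
  (by norm_num) (by norm_num) (by norm_num) (by norm_num) (by norm_num)

theorem inv8 : Inv 8 (345 / 100) 44 := inv7.step (by norm_num) (by norm_num) (by norm_num)
  (by norm_num) (by norm_num) (by norm_num) (by norm_num) (by norm_num)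

theorem inv9 : Inv 9 (37 / 10) 65 := inv8.step (by norm_num) (by norm_num) (by norm_num)
  (by norm_num) (by norm_num) (by norm_num) (by norm_num) (by norm_num)

theorem cube_le (t : ℕ) (ht : 9 ≤ t) : 7 * (t : ℝ) ^ 3 ≤ 3 ^ t := by
  induction t, ht using Nat.le_induction with
  | base => norm_num
  | succ t ht ih =>
    have ht' : (9 : ℝ) ≤ t := by exact_mod_cast ht
    rw [pow_succ (3 : ℝ)]
    push_cast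
    nlinarith [mul_nonneg (sub_nonneg.2 ht') (sq_nonneg (t : ℝ)), sq_nonneg (t : ℝ)]

theorem inv_ge (t : ℕ) (ht : 9 ≤ t) :
    Inv t (4 - 7 * (t : ℝ) ^ 3 / 3 ^ t) ((t : ℝ) ^ 2 + 4 * t - 52) := by
  induction t, ht using Nat.le_induction with
  | base => exact inv9.weaken (by norm_num) (by norm_num)
  | succ t ht ih =>
    have ht' : (9 : ℝ) ≤ t := by exact_mod_cast ht
    have hP : (0 : ℝ) < 3 ^ t := by positivity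
    have hc := cube_le t ht
    set e : ℝ := 7 * (t : ℝ) ^ 3 / 3 ^ t with he
    have he0 : 0 ≤ e := by positivity
    have he1 : e ≤ 1 := by rw [he, div_le_one hP]; exact hc
    have hdiff : (4 - 7 * ((t + 1 : ℕ) : ℝ) ^ 3 / 3 ^ (t + 1) - (4 - e)) * 3 ^ t
        = 7 * (t : ℝ) ^ 3 - 7 * ((t : ℝ) + 1) ^ 3 / 3 := by
      rw [he, pow_succ (3 : ℝ)]; push_cast; field_simp; ring
    have hs : 0 ≤ (t : ℝ) - 9 := by linarith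
    have hpoly : ((t : ℝ) ^ 2 + 6 * t - 47) * (2 * t + 9)
        ≤ 7 * (t : ℝ) ^ 3 - 7 * ((t : ℝ) + 1) ^ 3 / 3 := by
      nlinarith [mul_nonneg hs hs, mul_nonneg hs (mul_nonneg hs hs)]
    have hg0 : 0 ≤ (t : ℝ) ^ 2 + 4 * t - 52 := by nlinarith
    have h3 : ((2 * t + (4 - e) + ((t : ℝ) ^ 2 + 4 * t - 52) + 1) * (2 * t + (4 - e) + 5))
        ≤ ((t : ℝ) ^ 2 + 6 * t - 47) * (2 * t + 9) := by
      apply mul_le_mul <;> nlinarith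
    have ht3 : (t : ℝ) ^ 2 * 9 ≤ (t : ℝ) ^ 3 := by nlinarith [sq_nonneg (t : ℝ)]
    refine ih.step (by omega) (by linarith) ?_ hg0 ?_ ?_ ?_ ?_
    · have : 0 ≤ (4 - 7 * ((t + 1 : ℕ) : ℝ) ^ 3 / 3 ^ (t + 1) - (4 - e)) * 3 ^ t := by
        rw [hdiff]; nlinarith
      have := nonneg_of_mul_nonneg_left this hP
      linarith
    · push_cast; nlinarith
    · rw [hdiff]; linarith
    · nlinarith
    · nlinarith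

theorem win_small {t a u v : ℕ} (ht : 7 ≤ t) (hu : u + 3 ≤ 4 * a)
    (h : (2 * t + 5) * a + u + v ≤ 3 ^ t) : Win t a u v := by
  have hI : ∃ g, Inv t 4 g := by
    rcases Nat.lt_or_ge t 9 with h9 | h9
    · interval_cases t
      · exact ⟨_, inv7.weaken (by norm_num) le_rfl⟩
      · exact ⟨_, inv8.weaken (by norm_num) le_rfl⟩
    · refine ⟨_, (inv_ge t h9).weaken ?_ le_rfl⟩
      have : 0 ≤ 7 * (t : ℝ) ^ 3 / 3 ^ t := by positivity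
      linarith
  obtain ⟨g, hI⟩ := hI
  refine hI.1 a u v hu ?_
  have : (((2 * t + 5) * a + u + v : ℕ) : ℝ) ≤ ((3 ^ t : ℕ) : ℝ) := by exact_mod_cast h
  push_cast at this
  linarith

end Pool.Agent.MP_a3b474_co

end
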