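import Pool.Agent.MP_a3b474_co.Defs
import Pool.Agent.MP_a3b474_co.Mg.Chain

namespace Pool.Agent.MP_a3b474_co

open Finset

variable {N : ℕ}

/-- `T` weighs on scale `s`, separates the three bins and goes on with `T1`, `T2`, `T3`. -/
def Combines (T : Strategy N) (s : Fin 3) (P1 P2 P3 : Finset (Fin N)) (T1 T2 T3 : Strategy N) :
    Prop :=
  ∀ c b k, (s = b → T1.Finds c b k ∧ T2.Finds c b k ∧ T3.Finds c b k) →
    (s ≠ b → (c ∈ P1 ∧ T1.Finds c b k) ∨ (c ∈ P2 ∧ T2.Finds c b k) ∨ (c ∈ P3 ∧ T3.Finds c b k)) →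
    T.Finds c b (k + 1)

theorem move_base (s : Fin 3) {P1 P2 P3 : Finset (Fin N)} (h12 : Disjoint P1 P2)
    (h13 : Disjoint P1 P3) (h23 : Disjoint P2 P3) (hle : P1.card ≤ P2.card)
    (hroom : 2 * P2.card + P3.card ≤ N) {T1 T2 T3 : Strategy N} (l1 : T1.Legal) (l2 : T2.Legal)
    (l3 : T3.Legal) : ∃ T : Strategy N, T.Legal ∧ Combines T s P1 P2 P3 T1 T2 T3 := by
  have hc : P2.card - P1.card ≤ (univ \ (P1 ∪ P2 ∪ P3)).card := by
    rw [card_univ_sdiff, Fintype.card_fin]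
    have := card_union_le (P1 ∪ P2) P3
    have := card_union_le P1 P2
    omega
  obtain ⟨F, hF, hFc⟩ := exists_subset_card_eq hc
  have hFn : ∀ c ∈ F, c ∉ P1 ∧ c ∉ P2 ∧ c ∉ P3 := by
    intro c hc
    have := hF hc
    simp only [mem_sdiff, mem_univ, mem_union, true_and, not_or] at this
    exact ⟨this.1.1, this.1.2, this.2⟩
  refine ⟨.weigh s (P1 ∪ F) P2 T1 T2 T3, ⟨?_, ?_, l1, l2, l3⟩, ?_⟩
  · rw [disjoint_union_left]
    exact ⟨h12, disjoint_left.2 fun c hc => (hFn c hc).2.1⟩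
  · rw [card_union_of_disjoint (disjoint_right.2 fun c hc => (hFn c hc).1), hFc]
    omega
  · intro c b k h1 h2
    simp only [Strategy.Finds]
    by_cases hsb : s = b
    · rw [if_pos hsb]; exact h1 hsb
    · rw [if_neg hsb]
      rcases h2 hsb with ⟨hc, h⟩ | ⟨hc, h⟩ | ⟨hc, h⟩
      · rw [if_pos (mem_union_left _ hc)]; exact h
      · have : c ∉ P1 ∪ F := by
          rw [mem_union, not_or]
          exact ⟨disjoint_right.1 h12 hc, fun hf => (hFn c hf).2.1 hc⟩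
        rw [if_neg this, if_pos hc]; exact h
      · have : c ∉ P1 ∪ F := by
          rw [mem_union, not_or]
          exact ⟨disjoint_right.1 h13 hc, fun hf => (hFn c hf).2.2 hc⟩
        rw [if_neg this, if_neg (disjoint_right.1 h23 hc)]; exact h

theorem move (s : Fin 3) {P1 P2 P3 : Finset (Fin N)} (h12 : Disjoint P1 P2)
    (h13 : Disjoint P1 P3) (h23 : Disjoint P2 P3)
    (hroom : 3 * (P1.card + P2.card + P3.card) ≤ 2 * N) {T1 T2 T3 : Strategy N} (l1 : T1.Legal)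
    (l2 : T2.Legal) (l3 : T3.Legal) :
    ∃ T : Strategy N, T.Legal ∧ Combines T s P1 P2 P3 T1 T2 T3 := by
  rcases le_total P1.card P2.card with a | a <;> rcases le_total P1.card P3.card with b | b <;>
    rcases le_total P2.card P3.card with c | c
  · exact move_base s h12 h13 h23 a (by omega) l1 l2 l3
  · obtain ⟨T, l, h⟩ := move_base s h13 h12 h23.symm b (by omega) l1 l3 l2
    exact ⟨T, l, fun c b k h1 h2 => h c b k (by tauto) (by tauto)⟩
  · exact move_base s h12 h13 h23 a (by omega) l1 l2 l3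
  · obtain ⟨T, l, h⟩ := move_base s h13.symm h23.symm h12 b (by omega) l3 l1 l2
    exact ⟨T, l, fun c b k h1 h2 => h c b k (by tauto) (by tauto)⟩
  · obtain ⟨T, l, h⟩ := move_base s h12.symm h23 h13 a (by omega) l2 l1 l3
    exact ⟨T, l, fun c b k h1 h2 => h c b k (by tauto) (by tauto)⟩
  · obtain ⟨T, l, h⟩ := move_base s h12.symm h23 h13 a (by omega) l2 l1 l3
    exact ⟨T, l, fun c b k h1 h2 => h c b k (by tauto) (by tauto)⟩
  · obtain ⟨T, l, h⟩ := move_base s h23 h12.symm h13.symm c (by omega) l2 l3 l1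
    exact ⟨T, l, fun c b k h1 h2 => h c b k (by tauto) (by tauto)⟩
  · obtain ⟨T, l, h⟩ := move_base s h23.symm h13.symm h12.symm c (by omega) l3 l2 l1
    exact ⟨T, l, fun c b k h1 h2 => h c b k (by tauto) (by tauto)⟩

theorem split3 (A : Finset (Fin N)) {a1 a2 a3 : ℕ} (h : a1 + a2 + a3 = A.card) :
    ∃ A1 A2 A3 : Finset (Fin N), A1.card = a1 ∧ A2.card = a2 ∧ A3.card = a3 ∧
      A1 ⊆ A ∧ A2 ⊆ A ∧ A3 ⊆ A ∧ Disjoint A1 A2 ∧ Disjoint A1 A3 ∧ Disjoint A2 A3 ∧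
      ∀ c ∈ A, c ∈ A1 ∨ c ∈ A2 ∨ c ∈ A3 := by
  obtain ⟨A1, h1, c1⟩ := exists_subset_card_eq (s := A) (n := a1) (by omega)
  obtain ⟨A2, h2, c2⟩ := exists_subset_card_eq (s := A \ A1) (n := a2)
    (by rw [card_sdiff_of_subset h1]; omega)
  refine ⟨A1, A2, (A \ A1) \ A2, c1, c2, ?_, h1, h2.trans sdiff_subset,
    sdiff_subset.trans sdiff_subset, ?_, ?_, disjoint_sdiff, ?_⟩
  · rw [card_sdiff_of_subset h2, card_sdiff_of_subset h1]; omega
  · exact disjoint_right.2 fun c hc => (mem_sdiff.1 (h2 hc)).2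
  · exact disjoint_right.2 fun c hc => (mem_sdiff.1 (mem_sdiff.1 hc).1).2
  · intro c hc
    by_cases k1 : c ∈ A1
    · exact Or.inl k1
    by_cases k2 : c ∈ A2
    · exact Or.inr (Or.inl k2)
    exact Or.inr (Or.inr (by simp [hc, k1, k2]))

/-- A strategy that handles the position with uncontradicted coins `A` and suspects `X`, `Y`, `Z`
of the scales `u`, `v`, `s`. -/
def Good (t : ℕ) (A X Y Z : Finset (Fin N)) (u v s : Fin 3) : Prop :=
  ∃ T : Strategy N, T.Legal ∧ ∀ c b,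
    (c ∈ A ∨ (b = u ∧ c ∈ X) ∨ (b = v ∧ c ∈ Y) ∨ (b = s ∧ c ∈ Z)) → T.Finds c b t

theorem fin3_cases {s u v : Fin 3} (hsu : s ≠ u) (hsv : s ≠ v) (huv : u ≠ v) (b : Fin 3) :
    b = s ∨ b = u ∨ b = v := by
  revert s u v b; decide

theorem good_step {t : ℕ} {s u v : Fin 3} (hsu : s ≠ u) (hsv : s ≠ v)
    {A X Y A1 A2 A3 X1 X2 X3 Y1 Y2 Y3 : Finset (Fin N)}
    (hA : ∀ c ∈ A, c ∈ A1 ∨ c ∈ A2 ∨ c ∈ A3) (hX : ∀ c ∈ X, c ∈ X1 ∨ c ∈ X2 ∨ c ∈ X3)
    (hY : ∀ c ∈ Y, c ∈ Y1 ∨ c ∈ Y2 ∨ c ∈ Y3)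
    (hmove : ∀ T1 T2 T3 : Strategy N, T1.Legal → T2.Legal → T3.Legal → ∃ T : Strategy N,
      T.Legal ∧ Combines T s (A1 ∪ X1 ∪ Y1) (A2 ∪ X2 ∪ Y2) (A3 ∪ X3 ∪ Y3) T1 T2 T3)
    (g1 : Good t A1 X1 Y1 (A \ A1) u v s) (g2 : Good t A2 X2 Y2 (A \ A2) u v s)
    (g3 : Good t A3 X3 Y3 (A \ A3) u v s) : Good (t + 1) A X Y ∅ u v s := by
  obtain ⟨T1, l1, f1⟩ := g1
  obtain ⟨T2, l2, f2⟩ := g2
  obtain ⟨T3, l3, f3⟩ := g3
  obtain ⟨T, l, hT⟩ := hmove T1 T2 T3 l1 l2 l3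
  refine ⟨T, l, fun c b hc => hT c b t ?_ ?_⟩
  · rintro rfl
    have hcA : c ∈ A := by
      rcases hc with h | h | h | h
      · exact h
      · exact absurd h.1 hsu
      · exact absurd h.1 hsv
      · simp at h
    refine ⟨f1 c s ?_, f2 c s ?_, f3 c s ?_⟩
    · by_cases k : c ∈ A1 <;> simp [k, hcA]
    · by_cases k : c ∈ A2 <;> simp [k, hcA]
    · by_cases k : c ∈ A3 <;> simp [k, hcA]
  · intro _
    rcases hc with h | h | h | h
    · rcases hA c h with k | k | k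
      · exact Or.inl ⟨by simp [k], f1 c b (Or.inl k)⟩
      · exact Or.inr (Or.inl ⟨by simp [k], f2 c b (Or.inl k)⟩)
      · exact Or.inr (Or.inr ⟨by simp [k], f3 c b (Or.inl k)⟩)
    · rcases hX c h.2 with k | k | k
      · exact Or.inl ⟨by simp [k], f1 c b (Or.inr (Or.inl ⟨h.1, k⟩))⟩
      · exact Or.inr (Or.inl ⟨by simp [k], f2 c b (Or.inr (Or.inl ⟨h.1, k⟩))⟩)
      · exact Or.inr (Or.inr ⟨by simp [k], f3 c b (Or.inr (Or.inl ⟨h.1, k⟩))⟩)
    · rcases hY c h.2 with k | k | k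
      · exact Or.inl ⟨by simp [k], f1 c b (Or.inr (Or.inr (Or.inl ⟨h.1, k⟩)))⟩
      · exact Or.inr (Or.inl ⟨by simp [k], f2 c b (Or.inr (Or.inr (Or.inl ⟨h.1, k⟩)))⟩)
      · exact Or.inr (Or.inr ⟨by simp [k], f3 c b (Or.inr (Or.inr (Or.inl ⟨h.1, k⟩)))⟩)
    · simp at h

theorem disj_bins {A X Y Ai Aj Xi Xj Yi Yj : Finset (Fin N)} (hAX : Disjoint A X)
    (hAY : Disjoint A Y) (hXY : Disjoint X Y) (a1 : Ai ⊆ A) (a2 : Aj ⊆ A) (x1 : Xi ⊆ X)
    (x2 : Xj ⊆ X) (y1 : Yi ⊆ Y) (y2 : Yj ⊆ Y) (dA : Disjoint Ai Aj) (dX : Disjoint Xi Xj)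
    (dY : Disjoint Yi Yj) : Disjoint (Ai ∪ Xi ∪ Yi) (Aj ∪ Xj ∪ Yj) := by
  simp only [disjoint_union_left, disjoint_union_right]
  exact ⟨⟨⟨⟨dA, hAX.symm.mono x1 a2⟩, hAY.symm.mono y1 a2⟩,
    ⟨hAX.mono a1 x2, dX⟩, hXY.symm.mono y1 x2⟩, ⟨hAY.mono a1 y2, hXY.mono x1 y2⟩, dY⟩

theorem card3_le (A X Y : Finset (Fin N)) : (A ∪ X ∪ Y).card ≤ A.card + X.card + Y.card :=
  (card_union_le _ _).trans (Nat.add_le_add_right (card_union_le _ _) _)

theorem realize (hN : 0 < N) : ∀ (t : ℕ) {s u v : Fin 3}, s ≠ u → s ≠ v → u ≠ v →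
    ∀ {A X Y : Finset (Fin N)}, Disjoint A X → Disjoint A Y → Disjoint X Y →
    3 * (A.card + X.card + Y.card) ≤ 2 * N → Win t A.card X.card Y.card → Good t A X Y ∅ u v s
  | 0, s, u, v, _, _, _, A, X, Y, _, _, _, _, hW => by
    simp only [Win] at hW
    have hc : (A ∪ X ∪ Y).card ≤ 1 := (card3_le A X Y).trans hW
    rcases (A ∪ X ∪ Y).eq_empty_or_nonempty with he | ⟨d, hd⟩
    · refine ⟨.guess ⟨0, hN⟩, trivial, fun c b hc => ?_⟩
      have : c ∈ A ∪ X ∪ Y := by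
        rcases hc with h | h | h | h
        · simp [h]
        · simp [h.2]
        · simp [h.2]
        · simp at h
      rw [he] at this
      simp at this
    · refine ⟨.guess d, trivial, fun c b hc' => ?_⟩
      have : c ∈ A ∪ X ∪ Y := by
        rcases hc' with h | h | h | h
        · simp [h]
        · simp [h.2]
        · simp [h.2]
        · simp at h
      exact card_le_one.1 hc d hd c this
  | t + 1, s, u, v, hsu, hsv, huv, A, X, Y, hAX, hAY, hXY, hroom, hW => by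
    obtain ⟨a1, a2, a3, x1, x2, x3, y1, y2, y3, ha, hx, hy, h1, h2, h3⟩ := hW
    obtain ⟨A1, A2, A3, rfl, rfl, rfl, sA1, sA2, sA3, dA12, dA13, dA23, cA⟩ := split3 A ha
    obtain ⟨X1, X2, X3, rfl, rfl, rfl, sX1, sX2, sX3, dX12, dX13, dX23, cX⟩ := split3 X hx
    obtain ⟨Y1, Y2, Y3, rfl, rfl, rfl, sY1, sY2, sY3, dY12, dY13, dY23, cY⟩ := split3 Y hy
    have child : ∀ Ai Xi Yi : Finset (Fin N), Ai ⊆ A → Xi ⊆ X → Yi ⊆ Y →
        ((Xi.card = 0 ∧ Win t Ai.card Yi.card (A.card - Ai.card)) ∨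
          (Yi.card = 0 ∧ Win t Ai.card Xi.card (A.card - Ai.card)) ∨
          (Ai.card = A.card ∧ Win t Ai.card Xi.card Yi.card)) →
        Good t Ai Xi Yi (A \ Ai) u v s := by
      intro Ai Xi Yi sA sX sY h
      have cA' := card_le_card sA
      have cX' := card_le_card sX
      have cY' := card_le_card sY
      rcases h with ⟨h0, h⟩ | ⟨h0, h⟩ | ⟨h0, h⟩
      · rw [← card_sdiff_of_subset sA] at h
        obtain ⟨T, l, f⟩ := realize hN t huv hsu.symm hsv.symm (hAY.mono sA sY) disjoint_sdiff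
          (hAY.symm.mono sY sdiff_subset) (by rw [card_sdiff_of_subset sA]; omega) h
        rw [card_eq_zero] at h0
        subst h0
        exact ⟨T, l, fun c b hc => f c b (by tauto)⟩
      · rw [← card_sdiff_of_subset sA] at h
        obtain ⟨T, l, f⟩ := realize hN t huv.symm hsv.symm hsu.symm (hAX.mono sA sX) disjoint_sdiff
          (hAX.symm.mono sX sdiff_subset) (by rw [card_sdiff_of_subset sA]; omega) h
        rw [card_eq_zero] at h0
        subst h0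
        exact ⟨T, l, fun c b hc => f c b (by tauto)⟩
      · have : A \ Ai = ∅ := by
          rw [← card_eq_zero, card_sdiff_of_subset sA]; omega
        rw [this]
        exact realize hN t hsu hsv huv (hAX.mono sA sX) (hAY.mono sA sY) (hXY.mono sX sY)
          (by omega) h
    refine good_step hsu hsv cA cX cY ?_ (child _ _ _ sA1 sX1 sY1 h1) (child _ _ _ sA2 sX2 sY2 h2)
      (child _ _ _ sA3 sX3 sY3 h3)
    intro T1 T2 T3 l1 l2 l3
    refine move s (disj_bins hAX hAY hXY sA1 sA2 sX1 sX2 sY1 sY2 dA12 dX12 dY12)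
      (disj_bins hAX hAY hXY sA1 sA3 sX1 sX3 sY1 sY3 dA13 dX13 dY13)
      (disj_bins hAX hAY hXY sA2 sA3 sX2 sX3 sY2 sY3 dA23 dX23 dY23) ?_ l1 l2 l3
    have := card3_le A1 X1 Y1
    have := card3_le A2 X2 Y2
    have := card3_le A3 X3 Y3
    omega

theorem upper {a t : ℕ} (hN : N = 9 * a) (ha : 0 < a) (hW : Win t a (2 * a) (2 * a)) :
    ∃ T : Strategy N, T.Legal ∧ ∀ c b, T.Finds c b (t + 2) := by
  have second : ∀ A : Finset (Fin N), A.card = 3 * a → Good (t + 1) A ∅ ∅ (univ \ A) 1 2 0 := by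
    intro A hA
    have hX : (univ \ A).card = 6 * a := by rw [card_univ_sdiff, Fintype.card_fin]; omega
    have hAX : Disjoint A (univ \ A) := disjoint_sdiff
    generalize univ \ A = X at hX hAX
    obtain ⟨A1, A2, A3, cA1, cA2, cA3, sA1, sA2, sA3, dA12, dA13, dA23, cA⟩ :=
      split3 A (a1 := a) (a2 := a) (a3 := a) (by omega)
    obtain ⟨X1, X2, X3, cX1, cX2, cX3, sX1, sX2, sX3, dX12, dX13, dX23, cX⟩ :=
      split3 X (a1 := 2 * a) (a2 := 2 * a) (a3 := 2 * a) (by omega)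
    have child : ∀ Ai Xi : Finset (Fin N), Ai ⊆ A → Xi ⊆ X → Ai.card = a → Xi.card = 2 * a →
        Good t Ai Xi ∅ (A \ Ai) 0 2 1 := by
      intro Ai Xi sA sX cA cX
      have cZ : (A \ Ai).card = 2 * a := by rw [card_sdiff_of_subset sA]; omega
      obtain ⟨T, l, f⟩ := realize (by omega) t (s := 2) (u := 0) (v := 1) (by decide) (by decide)
        (by decide) (hAX.mono sA sX) disjoint_sdiff (hAX.symm.mono sX sdiff_subset) (by omega)
        (by rw [cA, cX, cZ]; exact hW)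
      exact ⟨T, l, fun c b hc => f c b (by tauto)⟩
    have cb : ∀ Ai Xi : Finset (Fin N), Ai ⊆ A → Xi ⊆ X → Ai.card = a → Xi.card = 2 * a →
        (Ai ∪ Xi ∪ ∅).card = 3 * a := by
      intro Ai Xi sA sX cA cX
      rw [union_empty, card_union_of_disjoint (hAX.mono sA sX)]; omega
    have e0 : (∅ : Finset (Fin N)) ⊆ ∅ := Subset.refl _
    have d0 : Disjoint (∅ : Finset (Fin N)) ∅ := disjoint_empty_left _
    obtain ⟨T, l, f⟩ := good_step (t := t) (s := 1) (u := 0) (v := 2) (by decide) (by decide)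
      (Y := ∅) (Y1 := ∅) (Y2 := ∅) (Y3 := ∅) cA cX (by simp)
      (fun T1 T2 T3 l1 l2 l3 => move_base 1
        (disj_bins hAX (disjoint_empty_right _) (disjoint_empty_right _) sA1 sA2 sX1 sX2 e0 e0
          dA12 dX12 d0)
        (disj_bins hAX (disjoint_empty_right _) (disjoint_empty_right _) sA1 sA3 sX1 sX3 e0 e0
          dA13 dX13 d0)
        (disj_bins hAX (disjoint_empty_right _) (disjoint_empty_right _) sA2 sA3 sX2 sX3 e0 e0
          dA23 dX23 d0)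
        (by rw [cb _ _ sA1 sX1 cA1 cX1, cb _ _ sA2 sX2 cA2 cX2])
        (by rw [cb _ _ sA3 sX3 cA3 cX3, cb _ _ sA2 sX2 cA2 cX2]; omega) l1 l2 l3)
      (child _ _ sA1 sX1 cA1 cX1) (child _ _ sA2 sX2 cA2 cX2) (child _ _ sA3 sX3 cA3 cX3)
    exact ⟨T, l, fun c b hc => f c b (by tauto)⟩
  obtain ⟨A1, A2, A3, cA1, cA2, cA3, -, -, -, dA12, dA13, dA23, cA⟩ :=
    split3 (univ : Finset (Fin N)) (a1 := 3 * a) (a2 := 3 * a) (a3 := 3 * a)
      (by rw [card_univ, Fintype.card_fin]; omega)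
  obtain ⟨T, l, f⟩ := good_step (t := t + 1) (s := 0) (u := 1) (v := 2) (by decide) (by decide)
    (X := ∅) (X1 := ∅) (X2 := ∅) (X3 := ∅) (Y := ∅) (Y1 := ∅) (Y2 := ∅) (Y3 := ∅) cA (by simp)
    (by simp)
    (fun T1 T2 T3 l1 l2 l3 => move_base 0 (by simpa using dA12) (by simpa using dA13)
      (by simpa using dA23) (by simp [cA1, cA2]) (by simp only [union_empty, cA2, cA3]; omega)
      l1 l2 l3)
    (second _ cA1) (second _ cA2) (second _ cA3)
  exact ⟨T, l, fun c b => f c b (Or.inl (mem_univ c))⟩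

theorem upper_bound {n k : ℕ} (hn : 3 ≤ n) (h : 3 ^ (2 * n) * (2 * k + 1) < 3 ^ k) :
    ∃ T : Strategy (3 ^ (2 * n)), T.Legal ∧ ∀ c b, T.Finds c b k := by
  have hk : 2 * n ≤ k := by
    by_contra hlt
    have : 3 ^ k ≤ 3 ^ (2 * n) := Nat.pow_le_pow_right (by norm_num) (by omega)
    nlinarith [pow_pos (show 0 < 3 by norm_num) (2 * n)]
  obtain ⟨j, rfl⟩ : ∃ j, k = 2 * n + j := ⟨k - 2 * n, by omega⟩
  rw [pow_add] at h
  have hj : 2 * (2 * n + j) + 1 < 3 ^ j := Nat.lt_of_mul_lt_mul_left h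
  have hmod : 3 ^ j % 4 = (2 * j + 1) % 4 := by
    clear h hj hk
    induction j with
    | zero => rfl
    | succ j ih => rw [pow_succ, Nat.mul_mod, ih]; omega
  have hj5 : 2 * (2 * n + j) + 5 ≤ 3 ^ j := by omega
  have hj3 : 3 ≤ j := by
    by_contra hlt
    have : j ≤ 2 := by omega
    interval_cases j <;> omega
  obtain ⟨m, rfl⟩ : ∃ m, n = m + 1 := ⟨n - 1, by omega⟩
  have ha : 9 ≤ 3 ^ (2 * m) :=
    calc 9 = 3 ^ 2 := by norm_num
      _ ≤ 3 ^ (2 * m) := Nat.pow_le_pow_right (by norm_num) (by omega)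
  have hW : Win (2 * m + j) (3 ^ (2 * m)) (2 * 3 ^ (2 * m)) (2 * 3 ^ (2 * m)) := by
    refine win_small (by omega) (by omega) ?_
    rw [pow_add]
    nlinarith
  have := upper (N := 3 ^ (2 * (m + 1))) (by ring) (by omega) hW
  rwa [show 2 * m + j + 2 = 2 * (m + 1) + j by ring] at this

end Pool.Agent.MP_a3b474_co
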